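import Mathlib

set_option autoImplicit false

open Set Topology

namespace Pool.Agent.Results.MP_c8df5e_gt.ProductReflection

universe u v

/-- A (nonempty) subset which is directed in the specialization order
(`a ≤ c` iff `a` lies in the closure of `{c}`). -/
def Dir {X : Type u} [TopologicalSpace X] (D : Set X) : Prop :=
  D.Nonempty ∧ ∀ a ∈ D, ∀ b ∈ D, ∃ c ∈ D, a ∈ closure ({c} : Set X) ∧ b ∈ closure ({c} : Set X)

/-- `s` is a supremum of `D` in the specialization order. -/
def IsSup {X : Type u} [TopologicalSpace X] (D : Set X) (s : X) : Prop :=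
  (∀ a ∈ D, a ∈ closure ({s} : Set X)) ∧
    ∀ t : X, (∀ a ∈ D, a ∈ closure ({t} : Set X)) → s ∈ closure ({t} : Set X)

/-- `d`-spaces (monotone convergence spaces). -/
def DSpace (X : Type u) [TopologicalSpace X] : Prop :=
  T0Space X ∧ ∀ D : Set X, Dir D → (∃ s, IsSup D s) ∧
    ∀ s, IsSup D s → ∀ U : Set X, IsOpen U → s ∈ U → (D ∩ U).Nonempty

/-- `μ : X → D` is a `d`-reflection of `X`. -/
def IsDReflection {X D : Type u} [TopologicalSpace X] [TopologicalSpace D] (μ : X → D) : Prop :=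
  DSpace D ∧ Continuous μ ∧
    ∀ (Y : Type u) [TopologicalSpace Y], DSpace Y → ∀ f : X → Y, Continuous f →
      ∃! g : D → Y, Continuous g ∧ g ∘ μ = f

section basics

variable {X : Type u} [TopologicalSpace X]

theorem mem_of_below {x z : X} (h : x ∈ closure ({z} : Set X)) {U : Set X} (hU : IsOpen U)
    (hx : x ∈ U) : z ∈ U := by
  obtain ⟨w, hw, hw'⟩ := mem_closure_iff.1 h U hU hx
  rw [mem_singleton_iff] at hw'
  rwa [hw'] at hw

theorem below_iff {x z : X} :
    x ∈ closure ({z} : Set X) ↔ ∀ U : Set X, IsOpen U → x ∈ U → z ∈ U := by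
  constructor
  · intro h U hU hx
    exact mem_of_below h hU hx
  · intro h
    rw [mem_closure_iff]
    intro U hU hx
    exact ⟨z, h U hU hx, rfl⟩

theorem below_refl (x : X) : x ∈ closure ({x} : Set X) := subset_closure rfl

theorem below_trans {x y z : X} (h : x ∈ closure ({y} : Set X)) (h' : y ∈ closure ({z} : Set X)) :
    x ∈ closure ({z} : Set X) :=
  closure_minimal (singleton_subset_iff.2 h') isClosed_closure h

theorem eq_of_below [T0Space X] {x y : X} (h : x ∈ closure ({y} : Set X))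
    (h' : y ∈ closure ({x} : Set X)) : x = y := by
  have : Inseparable x y := by
    rw [inseparable_iff_closure_eq]
    exact subset_antisymm (closure_minimal (singleton_subset_iff.2 h) isClosed_closure)
      (closure_minimal (singleton_subset_iff.2 h') isClosed_closure)
  exact this.eq

theorem sup_unique [T0Space X] {D : Set X} {s t : X} (hs : IsSup D s) (ht : IsSup D t) : s = t :=
  eq_of_below (hs.2 t ht.1) (ht.2 s hs.1)

/-- A point that bounds `D` and to which `D` converges is a supremum. -/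
theorem isSup_of_conv {D : Set X} {s : X} (h1 : ∀ a ∈ D, a ∈ closure ({s} : Set X))
    (h2 : ∀ U : Set X, IsOpen U → s ∈ U → (D ∩ U).Nonempty) : IsSup D s := by
  refine ⟨h1, fun t ht => ?_⟩
  rw [below_iff]
  intro U hU hs
  obtain ⟨a, ha, haU⟩ := h2 U hU hs
  exact mem_of_below (ht a ha) hU haU

/-- Subsets closed under directed suprema. -/
def DClosed (B : Set X) : Prop := ∀ D : Set X, D ⊆ B → Dir D → ∀ s, IsSup D s → s ∈ B

theorem dir_image {Y : Type v} [TopologicalSpace Y] {f : X → Y} (hf : Continuous f)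
    {D : Set X} (hD : Dir D) : Dir (f '' D) := by
  refine ⟨hD.1.image f, ?_⟩
  rintro _ ⟨a, ha, rfl⟩ _ ⟨b, hb, rfl⟩
  obtain ⟨c, hc, h1, h2⟩ := hD.2 a ha b hb
  refine ⟨f c, ⟨c, hc, rfl⟩, ?_, ?_⟩
  · rw [below_iff] at h1 ⊢
    exact fun U hU h => h1 (f ⁻¹' U) (hU.preimage hf) h
  · rw [below_iff] at h2 ⊢
    exact fun U hU h => h2 (f ⁻¹' U) (hU.preimage hf) h

theorem below_map {Y : Type v} [TopologicalSpace Y] {f : X → Y} (hf : Continuous f) {a b : X}
    (h : a ∈ closure ({b} : Set X)) : f a ∈ closure ({f b} : Set Y) := by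
  rw [below_iff] at h ⊢
  exact fun U hU hx => h (f ⁻¹' U) (hU.preimage hf) hx

/-- Continuous maps from a `d`-space preserve directed suprema. -/
theorem sup_image {Y : Type v} [TopologicalSpace Y] (hX : DSpace X) {f : X → Y}
    (hf : Continuous f) {D : Set X} (hD : Dir D) {s : X} (hs : IsSup D s) :
    IsSup (f '' D) (f s) := by
  apply isSup_of_conv
  · rintro _ ⟨a, ha, rfl⟩
    exact below_map hf (hs.1 a ha)
  · intro U hU h
    obtain ⟨a, ha, haU⟩ := (hX.2 D hD).2 s hs (f ⁻¹' U) (hU.preimage hf) h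
    exact ⟨f a, ⟨a, ha, rfl⟩, haU⟩

/-- A subset of a `d`-space that is closed under directed suprema is a `d`-space. -/
theorem dspace_sub (hX : DSpace X) {B : Set X} (hB : DClosed B) : DSpace B := by
  have := hX.1
  refine ⟨inferInstance, fun D hD => ?_⟩
  have hD' := dir_image (f := (Subtype.val : B → X)) continuous_subtype_val hD
  obtain ⟨⟨s, hs⟩, hconv⟩ := hX.2 _ hD'
  have hsB : s ∈ B := hB _ (by rintro _ ⟨a, _, rfl⟩; exact a.2) hD' s hs
  have hb : ∀ a ∈ D, a ∈ closure ({⟨s, hsB⟩} : Set B) := by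
    intro a ha
    rw [below_iff]
    rintro U hU hx
    obtain ⟨V, hV, rfl⟩ := isOpen_induced_iff.1 hU
    exact mem_of_below (hs.1 a.1 ⟨a, ha, rfl⟩) hV hx
  have hc : ∀ U : Set B, IsOpen U → (⟨s, hsB⟩ : B) ∈ U → (D ∩ U).Nonempty := by
    intro U hU hx
    obtain ⟨V, hV, rfl⟩ := isOpen_induced_iff.1 hU
    obtain ⟨_, ⟨a, ha, rfl⟩, haV⟩ := hconv s hs V hV hx
    exact ⟨a, ha, haV⟩
  have hsup := isSup_of_conv hb hc
  refine ⟨⟨_, hsup⟩, fun t ht U hU htU => ?_⟩
  rw [sup_unique ht hsup] at htU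
  exact hc U hU htU

end basics

section char

variable {X D : Type u} [TopologicalSpace X] [TopologicalSpace D]

/-- The concrete description of `d`-reflections: every open subset of `X` is the preimage of an
open subset of `D`, every nonempty locally closed subset of `D` meets the image of `X`, and `D`
is the only `d`-closed subset containing the image. -/
structure Conc (μ : X → D) : Prop where
  dsp : DSpace D
  cont : Continuous μ
  ext : ∀ U : Set X, IsOpen U → ∃ V : Set D, IsOpen V ∧ μ ⁻¹' V = U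
  dense : ∀ (V : Set D) (x : D), IsOpen V → x ∈ V → ∃ a : X, μ a ∈ V ∧ μ a ∈ closure ({x} : Set D)
  full : ∀ B : Set D, DClosed B → range μ ⊆ B → B = univ

theorem Conc.open_unique {μ : X → D} (h : Conc μ) {V W : Set D} (hV : IsOpen V) (hW : IsOpen W)
    (hVW : μ ⁻¹' V ⊆ μ ⁻¹' W) : V ⊆ W := by
  intro x hx
  obtain ⟨a, ha, ha'⟩ := h.dense V x hV hx
  exact mem_of_below ha' hW (hVW ha)

theorem Conc.reflection {μ : X → D} (h : Conc μ) : IsDReflection μ := by
  refine ⟨h.dsp, h.cont, fun Y _ hY f hf => ?_⟩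
  have := hY.1
  choose e he1 he2 using h.ext
  -- `E V` is the open subset of `D` that corresponds to the preimage of `V`
  let E : {V : Set Y // IsOpen V} → Set D := fun V => e (f ⁻¹' V.1) (V.2.preimage hf)
  have hE : ∀ V, IsOpen (E V) := fun V => he1 _ _
  have hE' : ∀ V, μ ⁻¹' (E V) = f ⁻¹' V.1 := fun V => he2 _ _
  let B : Set D := {d | ∃ y : Y, ∀ V : {V : Set Y // IsOpen V}, y ∈ V.1 ↔ d ∈ E V}
  have hBr : range μ ⊆ B := by
    rintro _ ⟨x, rfl⟩
    refine ⟨f x, fun V => ?_⟩
    have : x ∈ μ ⁻¹' (E V) ↔ x ∈ f ⁻¹' V.1 := by rw [hE' V]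
    exact this.symm
  have hB : DClosed B := by
    intro S hSB hS s hs
    choose y hy using fun d : S => hSB d.2
    have hmono : ∀ d d' : S, d.1 ∈ closure ({d'.1} : Set D) → y d ∈ closure ({y d'} : Set Y) := by
      intro d d' hdd
      rw [below_iff]
      intro V hV hyV
      exact (hy d' ⟨V, hV⟩).2 (mem_of_below hdd (hE _) ((hy d ⟨V, hV⟩).1 hyV))
    have hdir : Dir (range y) := by
      refine ⟨?_, ?_⟩
      · obtain ⟨d, hd⟩ := hS.1
        exact ⟨_, ⟨⟨d, hd⟩, rfl⟩⟩
      · rintro _ ⟨a, rfl⟩ _ ⟨b, rfl⟩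
        obtain ⟨c, hc, h1, h2⟩ := hS.2 a.1 a.2 b.1 b.2
        exact ⟨_, ⟨⟨c, hc⟩, rfl⟩, hmono a ⟨c, hc⟩ h1, hmono b ⟨c, hc⟩ h2⟩
    obtain ⟨⟨t, ht⟩, hconv⟩ := hY.2 _ hdir
    refine ⟨t, fun V => ⟨fun htV => ?_, fun hsV => ?_⟩⟩
    · obtain ⟨_, ⟨d, rfl⟩, hdV⟩ := hconv t ht V.1 V.2 htV
      exact mem_of_below (hs.1 d.1 d.2) (hE _) ((hy d V).1 hdV)
    · obtain ⟨d, hd, hdV⟩ := (h.dsp.2 S hS).2 s hs (E V) (hE V) hsV
      exact mem_of_below (ht.1 _ ⟨⟨d, hd⟩, rfl⟩) V.2 ((hy ⟨d, hd⟩ V).2 hdV)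
  have hall : ∀ d, ∃ y : Y, ∀ V : {V : Set Y // IsOpen V}, y ∈ V.1 ↔ d ∈ E V := by
    intro d
    have : d ∈ B := by rw [h.full B hB hBr]; trivial
    exact this
  choose g hg using hall
  have hgc : Continuous g := by
    rw [continuous_def]
    intro V hV
    have : g ⁻¹' V = E ⟨V, hV⟩ := by
      ext d
      exact hg d ⟨V, hV⟩
    rw [this]
    exact hE _
  have hgf : g ∘ μ = f := by
    funext x
    have hiff : ∀ V : Set Y, IsOpen V → (g (μ x) ∈ V ↔ f x ∈ V) := by
      intro V hV
      rw [hg (μ x) ⟨V, hV⟩]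
      have : x ∈ μ ⁻¹' (E ⟨V, hV⟩) ↔ x ∈ f ⁻¹' V := by rw [hE' ⟨V, hV⟩]
      exact this
    exact eq_of_below (below_iff.2 fun U hU hx => (hiff U hU).1 hx)
      (below_iff.2 fun U hU hx => (hiff U hU).2 hx)
  refine ⟨g, ⟨hgc, hgf⟩, ?_⟩
  rintro g' ⟨hg'c, hg'f⟩
  have hcl : DClosed {d : D | g' d = g d} := by
    intro S hS hSd s hs
    have h1 := sup_image h.dsp hg'c hSd hs
    have h2 := sup_image h.dsp hgc hSd hs
    have h3 : g' '' S = g '' S := image_congr fun d hd => hS hd
    rw [h3] at h1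
    exact sup_unique h1 h2
  have hr : range μ ⊆ {d : D | g' d = g d} := by
    rintro _ ⟨x, rfl⟩
    have e1 : g' (μ x) = f x := congrFun hg'f x
    have e2 : g (μ x) = f x := congrFun hgf x
    show g' (μ x) = g (μ x)
    rw [e1, e2]
  funext d
  have : d ∈ {d : D | g' d = g d} := by rw [h.full _ hcl hr]; trivial
  exact this

/-- The Sierpinski space is a `d`-space. -/
theorem dspace_sierpinski : DSpace (ULift.{u} Prop) := by
  have hT : T0Space (ULift.{u} Prop) :=
    (Homeomorph.ulift.{u} : ULift.{u} Prop ≃ₜ Prop).symm.t0Space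
  -- open sets containing the bottom point are everything
  have hbot : ∀ (U : Set (ULift.{u} Prop)) (s : ULift.{u} Prop), IsOpen U → s ∈ U → ¬ s.down →
      U = univ := by
    intro U s hU hs hsd
    obtain ⟨V, hV, rfl⟩ := isOpen_induced_iff.1 hU
    have hF : s.down = False := propext ⟨fun h => hsd h, fun h => h.elim⟩
    have h1 : V ∈ 𝓝 (False : Prop) := by
      refine hV.mem_nhds ?_
      rw [← hF]; exact hs
    rw [nhds_false] at h1
    rw [Filter.mem_top.1 h1]
    rfl
  have hopen : IsOpen {s : ULift.{u} Prop | s.down} := by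
    have : IsOpen ((ULift.down : ULift.{u} Prop → Prop) ⁻¹' {True}) :=
      isOpen_singleton_true.preimage continuous_uliftDown
    have e : (ULift.down : ULift.{u} Prop → Prop) ⁻¹' {True} = {s : ULift.{u} Prop | s.down} := by
      ext s
      simp
    rwa [e] at this
  have heq : ∀ a b : ULift.{u} Prop, (a.down ↔ b.down) → a = b := by
    intro a b h
    apply ULift.down_injective
    exact propext h
  -- convergence of `D` to `s` as soon as `s` is bottom or `D` contains the top
  have conv : ∀ (D : Set (ULift.{u} Prop)) (s : ULift.{u} Prop), D.Nonempty →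
      (s.down → ∃ a ∈ D, a.down) → ∀ U : Set (ULift.{u} Prop), IsOpen U → s ∈ U →
        (D ∩ U).Nonempty := by
    intro D s hD h2 U hU hs
    by_cases hsd : s.down
    · obtain ⟨a, ha, had⟩ := h2 hsd
      exact ⟨a, ha, (heq a s ⟨fun _ => hsd, fun _ => had⟩) ▸ hs⟩
    · obtain ⟨a, ha⟩ := hD
      refine ⟨a, ha, ?_⟩
      rw [hbot U s hU hs hsd]
      trivial
  have hbelow : ∀ a b : ULift.{u} Prop, (a.down → b.down) → a ∈ closure ({b} : Set _) := by
    intro a b hab
    rw [below_iff]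
    intro U hU ha
    by_cases had : a.down
    · exact (heq a b ⟨fun _ => hab had, fun _ => had⟩) ▸ ha
    · rw [hbot U a hU ha had]; trivial
  have hbelow' : ∀ a b : ULift.{u} Prop, a ∈ closure ({b} : Set _) → (a.down → b.down) := by
    intro a b hab had
    exact mem_of_below hab hopen had
  refine ⟨hT, fun D hD => ?_⟩
  have h1 : IsSup D (ULift.up (∃ a ∈ D, a.down)) := by
    apply isSup_of_conv
    · intro a ha
      exact hbelow _ _ fun had => ⟨a, ha, had⟩
    · exact conv D _ hD.1 fun h => h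
  refine ⟨⟨_, h1⟩, fun s hs => conv D s hD.1 fun hsd => ?_⟩
  have : s = ULift.up (∃ a ∈ D, a.down) := sup_unique hs h1
  rw [this] at hsd
  exact hsd

theorem conc_of_reflection {μ : X → D} (h : IsDReflection μ) : Conc μ := by
  obtain ⟨hD, hc, hu⟩ := h
  have hT := hD.1
  -- open sets as maps into the Sierpinski space
  have hcont : ∀ {Z : Type u} [TopologicalSpace Z] (U : Set Z), IsOpen U →
      Continuous fun z : Z => ULift.up.{u} (z ∈ U) := by
    intro Z _ U hU
    exact continuous_uliftUp.comp (isOpen_iff_continuous_mem.1 hU)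
  have hopen : ∀ {Z : Type u} [TopologicalSpace Z] (g : Z → ULift.{u} Prop), Continuous g →
      IsOpen {z : Z | (g z).down} := by
    intro Z _ g hg
    exact isOpen_iff_continuous_mem.2 (continuous_uliftDown.comp hg)
  have huniq : ∀ V W : Set D, IsOpen V → IsOpen W → μ ⁻¹' V = μ ⁻¹' W → V = W := by
    intro V W hV hW hVW
    obtain ⟨g, _, hg⟩ := hu (ULift.{u} Prop) dspace_sierpinski
      (fun x => ULift.up (μ x ∈ V)) ((hcont V hV).comp hc)
    have e1 := hg (fun d => ULift.up (d ∈ V)) ⟨hcont V hV, rfl⟩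
    have e2 := hg (fun d => ULift.up (d ∈ W)) ⟨hcont W hW, by
      funext x
      have : (μ x ∈ W) = (μ x ∈ V) := by
        have : x ∈ μ ⁻¹' W ↔ x ∈ μ ⁻¹' V := by rw [hVW]
        exact propext this
      show ULift.up (μ x ∈ W) = ULift.up (μ x ∈ V)
      rw [this]⟩
    have e3 := e1.trans e2.symm
    ext d
    have : ULift.up.{u} (d ∈ V) = ULift.up (d ∈ W) := congrFun e3 d
    exact iff_of_eq (ULift.up_injective this)
  have hfull : ∀ B : Set D, DClosed B → range μ ⊆ B → B = univ := by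
    intro B hB hr
    obtain ⟨g, ⟨hgc, hgμ⟩, _⟩ := hu B (dspace_sub hD hB) (fun x => ⟨μ x, hr ⟨x, rfl⟩⟩)
      (hc.subtype_mk _)
    obtain ⟨g', _, hg'⟩ := hu D hD μ hc
    have e1 := hg' (fun d => (g d).1) ⟨continuous_subtype_val.comp hgc, by
      funext x
      have := congrFun hgμ x
      show (g (μ x)).1 = μ x
      have h2 : g (μ x) = ⟨μ x, hr ⟨x, rfl⟩⟩ := this
      rw [h2]⟩
    have e2 := hg' (fun d => d) ⟨continuous_id, rfl⟩
    have e3 := e1.trans e2.symm
    rw [eq_univ_iff_forall]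
    intro d
    have : (g d).1 = d := congrFun e3 d
    rw [← this]
    exact (g d).2
  refine ⟨hD, hc, ?_, ?_, hfull⟩
  · intro U hU
    obtain ⟨g, ⟨hgc, hgμ⟩, _⟩ := hu (ULift.{u} Prop) dspace_sierpinski
      (fun x => ULift.up (x ∈ U)) (hcont U hU)
    refine ⟨{d | (g d).down}, hopen g hgc, ?_⟩
    ext x
    have : g (μ x) = ULift.up (x ∈ U) := congrFun hgμ x
    show (g (μ x)).down ↔ x ∈ U
    rw [this]
  · intro V x hV hx
    by_contra hcon
    push Not at hcon
    have hW : IsOpen (V \ closure ({x} : Set D)) := hV.sdiff isClosed_closure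
    have := huniq V (V \ closure ({x} : Set D)) hV hW (by
      ext a
      constructor
      · intro ha
        exact ⟨ha, hcon a ha⟩
      · intro ha
        exact ha.1)
    rw [this] at hx
    exact hx.2 (below_refl x)

end char

section product

variable {I : Type u} {D : I → Type u} [∀ i, TopologicalSpace (D i)]

theorem below_pi {x y : ∀ i, D i} :
    x ∈ closure ({y} : Set (∀ i, D i)) ↔ ∀ i, x i ∈ closure ({y i} : Set (D i)) := by
  constructor
  · intro h i
    exact below_map (continuous_apply i) h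
  · intro h
    rw [mem_closure_iff]
    intro U hU hx
    obtain ⟨F, u, hu, hsub⟩ := isOpen_pi_iff.1 hU x hx
    refine ⟨y, hsub fun i hi => ?_, rfl⟩
    exact mem_of_below (h i) (hu i hi).1 (hu i hi).2

/-- Products of `d`-spaces are `d`-spaces, with coordinatewise suprema. -/
theorem dspace_pi (hD : ∀ i, DSpace (D i)) : DSpace (∀ i, D i) := by
  have : ∀ i, T0Space (D i) := fun i => (hD i).1
  refine ⟨inferInstance, fun S hS => ?_⟩
  have hdir : ∀ i, Dir ((fun x : ∀ i, D i => x i) '' S) := fun i =>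
    dir_image (continuous_apply i) hS
  choose s hs using fun i => ((hD i).2 _ (hdir i)).1
  have hb : ∀ a ∈ S, a ∈ closure ({s} : Set (∀ i, D i)) := by
    intro a ha
    rw [below_pi]
    exact fun i => (hs i).1 _ ⟨a, ha, rfl⟩
  have hc : ∀ U : Set (∀ i, D i), IsOpen U → s ∈ U → (S ∩ U).Nonempty := by
    intro U hU hsU
    obtain ⟨F, u, hu, hsub⟩ := isOpen_pi_iff.1 hU s hsU
    have key : ∀ G : Finset I, G ⊆ F → ∃ a ∈ S, ∀ i ∈ G, a i ∈ u i := by
      classical
      intro G
      induction G using Finset.induction_on with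
      | empty => intro _; obtain ⟨a, ha⟩ := hS.1; exact ⟨a, ha, by simp⟩
      | insert j G hj ih =>
        intro hG
        obtain ⟨a, ha, haG⟩ := ih ((Finset.subset_insert _ _).trans hG)
        have hjF : j ∈ F := hG (Finset.mem_insert_self _ _)
        obtain ⟨_, ⟨b, hb, rfl⟩, hbu⟩ :=
          ((hD j).2 _ (hdir j)).2 (s j) (hs j) (u j) (hu j hjF).1 (hu j hjF).2
        obtain ⟨c, hc, h1, h2⟩ := hS.2 a ha b hb
        rw [below_pi] at h1 h2
        refine ⟨c, hc, fun i hi => ?_⟩
        rcases Finset.mem_insert.1 hi with rfl | hi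
        · exact mem_of_below (h2 _) (hu _ hjF).1 hbu
        · exact mem_of_below (h1 i) (hu i (hG (Finset.mem_insert_of_mem hi))).1 (haG i hi)
    obtain ⟨a, ha, haF⟩ := key F subset_rfl
    exact ⟨a, ha, hsub fun i hi => haF i hi⟩
  have hsup := isSup_of_conv hb hc
  refine ⟨⟨s, hsup⟩, fun t ht U hU htU => ?_⟩
  rw [sup_unique ht hsup] at htU
  exact hc U hU htU

variable {X : I → Type u} [∀ i, TopologicalSpace (X i)]

theorem conc_pi {μ : ∀ i, X i → D i} (h : ∀ i, Conc (μ i)) :
    Conc (fun (x : ∀ i, X i) i => μ i (x i)) := by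
  classical
  have hdsp : DSpace (∀ i, D i) := dspace_pi fun i => (h i).dsp
  have hT := hdsp.1
  have hcont : Continuous (fun (x : ∀ i, X i) i => μ i (x i)) :=
    continuous_pi fun i => (h i).cont.comp (continuous_apply i)
  -- every point of `D i` has a point of the image below it
  have hlow : ∀ i (d : D i), ∃ a : X i, μ i a ∈ closure ({d} : Set (D i)) := by
    intro i d
    obtain ⟨a, _, ha⟩ := (h i).dense univ d isOpen_univ trivial
    exact ⟨a, ha⟩
  refine ⟨hdsp, hcont, ?_, ?_, ?_⟩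
  · intro U hU
    choose e he1 he2 using fun i => (h i).ext
    -- the union of the boxes whose preimages lie in `U`
    let 𝒱 : Set (Set (∀ i, D i)) := {V | IsOpen V ∧ (fun (x : ∀ i, X i) i => μ i (x i)) ⁻¹' V ⊆ U}
    refine ⟨⋃₀ 𝒱, isOpen_sUnion fun V hV => hV.1, ?_⟩
    apply subset_antisymm
    · rintro x ⟨V, hV, hx⟩
      exact hV.2 hx
    · intro x hx
      obtain ⟨F, u, hu, hsub⟩ := isOpen_pi_iff.1 hU x hx
      have hV : ∀ i, ∃ V : Set (D i), IsOpen V ∧ (i ∈ F → μ i ⁻¹' V = u i) := by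
        intro i
        by_cases hi : i ∈ F
        · obtain ⟨V, hV, hVu⟩ := (h i).ext (u i) (hu i hi).1
          exact ⟨V, hV, fun _ => hVu⟩
        · exact ⟨univ, isOpen_univ, fun h => absurd h hi⟩
      choose V hVo hVu using hV
      refine ⟨(F : Set I).pi V, ⟨isOpen_set_pi F.finite_toSet fun i _ => hVo i, ?_⟩, ?_⟩
      · intro y hy
        apply hsub
        intro i hi
        have h1 : y i ∈ μ i ⁻¹' V i := hy i hi
        rwa [hVu i hi] at h1
      · intro i hi
        have h1 : x i ∈ u i := (hu i hi).2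
        rw [← hVu i hi] at h1
        exact h1
  · intro V x hV hx
    obtain ⟨F, u, hu, hsub⟩ := isOpen_pi_iff.1 hV x hx
    have : ∀ i, ∃ a : X i, (i ∈ F → μ i a ∈ u i) ∧ μ i a ∈ closure ({x i} : Set (D i)) := by
      intro i
      by_cases hi : i ∈ F
      · obtain ⟨a, ha, ha'⟩ := (h i).dense (u i) (x i) (hu i hi).1 (hu i hi).2
        exact ⟨a, fun _ => ha, ha'⟩
      · obtain ⟨a, ha⟩ := hlow i (x i)
        exact ⟨a, fun h => absurd h hi, ha⟩
    choose a ha ha' using this
    refine ⟨a, hsub fun i hi => ha i hi, ?_⟩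
    rw [below_pi]
    exact ha'
  · intro B hB hr
    -- all points with finitely many coordinates outside the image lie in `B`
    have hfin : ∀ (F : Finset I) (x : ∀ i, D i), (∀ i, i ∉ F → x i ∈ range (μ i)) → x ∈ B := by
      intro F
      induction F using Finset.induction_on with
      | empty =>
        intro x hx
        choose a ha using fun i => hx i (Finset.notMem_empty i)
        have : x = fun i => μ i (a i) := by funext i; exact (ha i).symm
        rw [this]
        exact hr ⟨a, rfl⟩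
      | insert j F hj ih =>
        intro x hx
        let C : Set (D j) := {d | Function.update x j d ∈ B}
        have hC : DClosed C := by
          intro S hSC hS s hs
          have hup : Continuous fun d : D j => Function.update x j d :=
            continuous_const.update j continuous_id
          have h1 := sup_image (h j).dsp hup hS hs
          refine hB _ ?_ (dir_image hup hS) _ h1
          rintro _ ⟨d, hd, rfl⟩
          exact hSC hd
        have hCr : range (μ j) ⊆ C := by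
          rintro _ ⟨a, rfl⟩
          show Function.update x j (μ j a) ∈ B
          apply ih
          intro i hi
          by_cases hij : i = j
          · subst hij
            rw [Function.update_self]
            exact ⟨a, rfl⟩
          · rw [Function.update_of_ne hij]
            exact hx i (by simp [hij, hi])
        have h2 : x j ∈ C := by rw [(h j).full C hC hCr]; trivial
        have h3 : Function.update x j (x j) ∈ B := h2
        rwa [Function.update_eq_self] at h3
    rw [eq_univ_iff_forall]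
    intro x
    choose y hy using fun i => hlow i (x i)
    -- the directed family `x` on `F`, `μ y` elsewhere
    let z : Finset I → ∀ i, D i := fun F i => if i ∈ F then x i else μ i (y i)
    have hz1 : ∀ F, z F ∈ closure ({x} : Set (∀ i, D i)) := by
      intro F
      rw [below_pi]
      intro i
      by_cases hi : i ∈ F
      · simp only [z, if_pos hi]; exact below_refl _
      · simp only [z, if_neg hi]; exact hy i
    have hz2 : ∀ F G, F ⊆ G → z F ∈ closure ({z G} : Set (∀ i, D i)) := by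
      intro F G hFG
      rw [below_pi]
      intro i
      by_cases hi : i ∈ F
      · simp only [z, if_pos hi, if_pos (hFG hi)]; exact below_refl _
      · by_cases hi' : i ∈ G
        · simp only [z, if_neg hi, if_pos hi']; exact hy i
        · simp only [z, if_neg hi, if_neg hi']; exact below_refl _
    refine hB (range z) ?_ ⟨range_nonempty _, ?_⟩ x (isSup_of_conv ?_ ?_)
    · rintro _ ⟨F, rfl⟩
      refine hfin F _ fun i hi => ⟨y i, ?_⟩
      simp only [z, if_neg hi]
    · rintro _ ⟨F, rfl⟩ _ ⟨G, rfl⟩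
      exact ⟨_, ⟨F ∪ G, rfl⟩, hz2 _ _ Finset.subset_union_left, hz2 _ _ Finset.subset_union_right⟩
    · rintro _ ⟨F, rfl⟩
      exact hz1 F
    · intro U hU hx
      obtain ⟨F, u, hu, hsub⟩ := isOpen_pi_iff.1 hU x hx
      refine ⟨z F, ⟨F, rfl⟩, hsub fun i hi => ?_⟩
      have : z F i = x i := if_pos hi
      rw [this]
      exact (hu i hi).2

end product

/-- Two `d`-reflections of a space are homeomorphic, compatibly with the maps. -/
theorem reflection_unique {X D E : Type u} [TopologicalSpace X] [TopologicalSpace D]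
    [TopologicalSpace E] {μ : X → D} {ν : X → E} (hμ : IsDReflection μ) (hν : IsDReflection ν) :
    ∃ h : E ≃ₜ D, ∀ x, h (ν x) = μ x := by
  obtain ⟨f, ⟨hf, hfν⟩, _⟩ := hν.2.2 D hμ.1 μ hμ.2.1
  obtain ⟨g, ⟨hg, hgμ⟩, _⟩ := hμ.2.2 E hν.1 ν hν.2.1
  have h1 : ∀ e, g (f e) = e := by
    obtain ⟨k, _, hk⟩ := hν.2.2 E hν.1 ν hν.2.1
    have e1 := hk (g ∘ f) ⟨hg.comp hf, by rw [Function.comp_assoc, hfν, hgμ]⟩
    have e2 := hk id ⟨continuous_id, rfl⟩
    exact fun e => congrFun (e1.trans e2.symm) e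
  have h2 : ∀ d, f (g d) = d := by
    obtain ⟨k, _, hk⟩ := hμ.2.2 D hμ.1 μ hμ.2.1
    have e1 := hk (f ∘ g) ⟨hf.comp hg, by rw [Function.comp_assoc, hgμ, hfν]⟩
    have e2 := hk id ⟨continuous_id, rfl⟩
    exact fun d => congrFun (e1.trans e2.symm) d
  exact ⟨{ toFun := f, invFun := g, left_inv := h1, right_inv := h2,
           continuous_toFun := hf, continuous_invFun := hg }, fun x => congrFun hfν x⟩

section existence

/-- The points of the sobrification of `X`. -/
def Sob (X : Type u) [TopologicalSpace X] : Type u := {A : Set X // IsClosed A ∧ IsIrreducible A}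

instance (X : Type u) [TopologicalSpace X] : TopologicalSpace (Sob X) where
  IsOpen W := ∃ U : Set X, IsOpen U ∧ W = {A : Sob X | (A.1 ∩ U).Nonempty}
  isOpen_univ := ⟨univ, isOpen_univ, by
    ext A
    constructor
    · intro _
      show (A.1 ∩ univ).Nonempty
      rw [inter_univ]
      exact A.2.2.1
    · intro _
      trivial⟩
  isOpen_inter := by
    rintro _ _ ⟨U, hU, rfl⟩ ⟨V, hV, rfl⟩
    refine ⟨U ∩ V, hU.inter hV, ?_⟩
    ext A
    constructor
    · rintro ⟨h1, h2⟩
      exact A.2.2.2 U V hU hV h1 h2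
    · rintro ⟨x, hxA, hxU, hxV⟩
      exact ⟨⟨x, hxA, hxU⟩, ⟨x, hxA, hxV⟩⟩
  isOpen_sUnion := by
    intro S hS
    refine ⟨⋃₀ {U | IsOpen U ∧ {A : Sob X | (A.1 ∩ U).Nonempty} ∈ S}, isOpen_sUnion fun U h => h.1,
      ?_⟩
    ext A
    constructor
    · rintro ⟨W, hW, hA⟩
      obtain ⟨U, hU, rfl⟩ := hS W hW
      obtain ⟨x, hx, hxU⟩ := hA
      exact ⟨x, hx, U, ⟨hU, hW⟩, hxU⟩
    · rintro ⟨x, hx, U, ⟨hU, hW⟩, hxU⟩
      exact ⟨_, hW, ⟨x, hx, hxU⟩⟩

variable (X : Type u) [TopologicalSpace X]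

theorem sob_below (A B : Sob X) : A ∈ closure ({B} : Set (Sob X)) ↔ A.1 ⊆ B.1 := by
  rw [below_iff]
  constructor
  · intro h x hx
    by_contra hxB
    obtain ⟨y, hy, hy'⟩ := h {C : Sob X | (C.1 ∩ B.1ᶜ).Nonempty}
      ⟨B.1ᶜ, B.2.1.isOpen_compl, rfl⟩ ⟨x, hx, hxB⟩
    exact hy' hy
  · rintro h _ ⟨U, hU, rfl⟩ ⟨x, hx, hxU⟩
    exact ⟨x, h hx, hxU⟩

theorem sob_dspace : DSpace (Sob X) := by
  have hT : T0Space (Sob X) := by
    rw [t0Space_iff_inseparable]
    intro A B h
    apply Subtype.ext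
    rw [inseparable_iff_closure_eq] at h
    exact subset_antisymm ((sob_below X A B).1 (h ▸ below_refl A))
      ((sob_below X B A).1 (h.symm ▸ below_refl B))
  refine ⟨hT, fun D hD => ?_⟩
  have hirr : IsIrreducible (closure (⋃ A ∈ D, A.1)) := by
    apply IsIrreducible.closure
    constructor
    · obtain ⟨A, hA⟩ := hD.1
      obtain ⟨x, hx⟩ := A.2.2.1
      exact ⟨x, mem_biUnion hA hx⟩
    · rintro U V hU hV ⟨x, hx, hxU⟩ ⟨y, hy, hyV⟩
      obtain ⟨A, hA, hxA⟩ := mem_iUnion₂.1 hx
      obtain ⟨B, hB, hyB⟩ := mem_iUnion₂.1 hy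
      obtain ⟨C, hC, h1, h2⟩ := hD.2 A hA B hB
      rw [sob_below] at h1 h2
      obtain ⟨z, hz, hzUV⟩ := C.2.2.2 U V hU hV ⟨x, h1 hxA, hxU⟩ ⟨y, h2 hyB, hyV⟩
      exact ⟨z, mem_biUnion hC hz, hzUV⟩
  obtain ⟨s, hs⟩ : ∃ s : Sob X, s.1 = closure (⋃ A ∈ D, A.1) :=
    ⟨⟨_, isClosed_closure, hirr⟩, rfl⟩
  have hsup : IsSup D s ∧
      ∀ U : Set (Sob X), IsOpen U → s ∈ U → (D ∩ U).Nonempty := by
    have hc : ∀ U : Set (Sob X), IsOpen U → s ∈ U → (D ∩ U).Nonempty := by
      rintro _ ⟨U, hU, rfl⟩ ⟨x, hx, hxU⟩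
      rw [hs] at hx
      obtain ⟨y, hyU, hy⟩ := mem_closure_iff.1 hx U hU hxU
      obtain ⟨A, hA, hyA⟩ := mem_iUnion₂.1 hy
      exact ⟨A, hA, ⟨y, hyA, hyU⟩⟩
    refine ⟨isSup_of_conv ?_ hc, hc⟩
    intro A hA
    rw [sob_below, hs]
    exact (subset_biUnion_of_mem (u := fun A : Sob X => A.1) hA).trans subset_closure
  refine ⟨⟨_, hsup.1⟩, fun t ht U hU htU => ?_⟩
  rw [sup_unique ht hsup.1] at htU
  exact hsup.2 U hU htU

/-- Every `T0` space has a `d`-reflection (so the notions above are not vacuous). -/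
theorem exists_reflection [T0Space X] :
    ∃ (D : Type u) (_ : TopologicalSpace D) (μ : X → D), IsDReflection μ := by
  let η : X → Sob X := fun x => ⟨closure {x}, isClosed_closure, isIrreducible_singleton.closure⟩
  have hηm : ∀ (U : Set X), IsOpen U → ∀ x, (((η x).1 ∩ U).Nonempty ↔ x ∈ U) := by
    intro U hU x
    constructor
    · rintro ⟨y, hy, hyU⟩
      exact mem_of_below hy hU hyU
    · intro hx
      exact ⟨x, below_refl x, hx⟩
  have hη : Continuous η := by
    rw [continuous_def]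
    rintro _ ⟨U, hU, rfl⟩
    have : η ⁻¹' {A : Sob X | (A.1 ∩ U).Nonempty} = U := by
      ext x
      exact hηm U hU x
    rwa [this]
  let B : Set (Sob X) := ⋂₀ {C | DClosed C ∧ range η ⊆ C}
  have hB : DClosed B := by
    intro S hSB hS s hs C hC
    exact hC.1 S (fun a ha => hSB ha C hC) hS s hs
  have hr : range η ⊆ B := fun y hy C hC => hC.2 hy
  refine ⟨B, inferInstance, fun x => ⟨η x, hr ⟨x, rfl⟩⟩, Conc.reflection ?_⟩
  have hsub := dspace_sub (sob_dspace X) hB
  refine ⟨hsub, hη.subtype_mk _, ?_, ?_, ?_⟩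
  · intro U hU
    refine ⟨Subtype.val ⁻¹' {A : Sob X | (A.1 ∩ U).Nonempty},
      (show IsOpen {A : Sob X | (A.1 ∩ U).Nonempty} from ⟨U, hU, rfl⟩).preimage
        continuous_subtype_val, ?_⟩
    ext x
    exact hηm U hU x
  · intro V x hV hx
    obtain ⟨W, ⟨U, hU, rfl⟩, rfl⟩ := isOpen_induced_iff.1 hV
    obtain ⟨a, ha, haU⟩ := hx
    refine ⟨a, (hηm U hU a).2 haU, ?_⟩
    rw [below_iff]
    rintro _ hW hη'
    obtain ⟨_, ⟨U', hU', rfl⟩, rfl⟩ := isOpen_induced_iff.1 hW
    exact ⟨a, ha, (hηm U' hU' a).1 hη'⟩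
  · intro C hC hCr
    rw [eq_univ_iff_forall]
    intro b
    have hC' : DClosed (Subtype.val '' C) := by
      intro S hSC hS s hs
      have hSB : S ⊆ B := by
        intro a ha
        obtain ⟨c, _, rfl⟩ := hSC ha
        exact c.2
      have hsB : s ∈ B := hB S hSB hS s hs
      refine ⟨⟨s, hsB⟩, hC (Subtype.val ⁻¹' S) ?_ ?_ _ ?_, rfl⟩
      · intro a ha
        obtain ⟨c, hc, hca⟩ := hSC ha
        have : c = a := Subtype.ext hca
        rwa [← this]
      · refine ⟨?_, ?_⟩
        · obtain ⟨a, ha⟩ := hS.1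
          exact ⟨⟨a, hSB ha⟩, ha⟩
        · intro a ha b hb
          obtain ⟨c, hc, h1, h2⟩ := hS.2 a.1 ha b.1 hb
          refine ⟨⟨c, hSB hc⟩, hc, ?_, ?_⟩
          · rw [closure_subtype]; simpa using h1
          · rw [closure_subtype]; simpa using h2
      · apply isSup_of_conv
        · intro a ha
          rw [closure_subtype]
          simpa using hs.1 a.1 ha
        · rintro _ hU hsU
          obtain ⟨V, hV, rfl⟩ := isOpen_induced_iff.1 hU
          obtain ⟨a, ha, haV⟩ := ((sob_dspace X).2 S hS).2 s hs V hV hsU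
          exact ⟨⟨a, hSB ha⟩, ha, haV⟩
    have hCr' : range η ⊆ Subtype.val '' C := by
      rintro _ ⟨x, rfl⟩
      exact ⟨_, hCr ⟨x, rfl⟩, rfl⟩
    obtain ⟨c, hc, hcb⟩ := b.2 _ ⟨hC', hCr'⟩
    have : c = b := Subtype.ext hcb
    rwa [← this]

end existence

/-- **The `d`-reflection functor preserves arbitrary products of `T0` spaces.** If
`μ i : X i → D i` is a `d`-reflection of the `T0` space `X i`, for all `i` in an arbitrary index
set `I`, then the product map `∏ X i → ∏ D i` is a `d`-reflection of `∏ X i`; and every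
`d`-reflection `ν : ∏ X i → E` of `∏ X i` is homeomorphic to it, by a homeomorphism
`E ≃ ∏ D i` which is compatible with `ν` and the product map. -/
theorem result (I : Type u) (X D : I → Type u) [∀ i, TopologicalSpace (X i)]
    [∀ i, TopologicalSpace (D i)] [∀ i, T0Space (X i)] (μ : ∀ i, X i → D i)
    (hμ : ∀ i, IsDReflection (μ i)) :
    IsDReflection (fun (x : ∀ i, X i) i => μ i (x i)) ∧
    ∀ (E : Type u) [TopologicalSpace E] (ν : (∀ i, X i) → E), IsDReflection ν →
      ∃ h : E ≃ₜ (∀ i, D i), ∀ x : ∀ i, X i, h (ν x) = fun i => μ i (x i) := by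
  have h1 : IsDReflection (fun (x : ∀ i, X i) i => μ i (x i)) :=
    (conc_pi fun i => conc_of_reflection (hμ i)).reflection
  exact ⟨h1, fun E _ ν hν => reflection_unique h1 hν⟩

end Pool.Agent.Results.MP_c8df5e_gt.ProductReflection
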